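import Pool.Agent.Helper52.KP.StG

set_option autoImplicit false

namespace Pool.Agent.Helper11.KP

open Pool.Agent.Helper52.KP MeasureTheory Filter Metric Set
open scoped Topology

/-- Gluing of local extensions. -/
theorem glue {E : Type*} [NormedAddCommGroup E] [NormedSpace ℂ E] (B B' : Set E) (hB : IsOpen B)
    (f : E → ℂ) (hdense : ∀ w ∈ B, (𝓝[B'] w).NeBot)
    (hloc : ∀ w ∈ B, ∃ V : Set E, IsOpen V ∧ w ∈ V ∧ ∃ G : E → ℂ, DifferentiableOn ℂ G V ∧
      ∀ v ∈ V, v ∈ B' → G v = f v) :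
    ∃ F : E → ℂ, DifferentiableOn ℂ F B ∧ ∀ w ∈ B, w ∈ B' → F w = f w := by
  classical
  have key : ∀ w ∈ B, ∀ V : Set E, IsOpen V → w ∈ V → ∀ G : E → ℂ, DifferentiableOn ℂ G V →
      (∀ v ∈ V, v ∈ B' → G v = f v) → limUnder (𝓝[B'] w) f = G w := by
    intro w hw V hV hwV G hG hGf
    haveI := hdense w hw
    apply Tendsto.limUnder_eq
    have h1 : Tendsto G (𝓝[B'] w) (𝓝 (G w)) :=
      ((hG w hwV).differentiableAt (hV.mem_nhds hwV)).continuousAt.tendsto.mono_left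
        nhdsWithin_le_nhds
    refine h1.congr' ?_
    have h2 : ∀ᶠ v in 𝓝[B'] w, v ∈ V := nhdsWithin_le_nhds (hV.mem_nhds hwV)
    filter_upwards [h2, self_mem_nhdsWithin] with v hv hv' using hGf v hv hv'
  refine ⟨fun w => limUnder (𝓝[B'] w) f, ?_, ?_⟩
  · intro w hw
    obtain ⟨V, hV, hwV, G, hG, hGf⟩ := hloc w hw
    have h1 : (fun w => limUnder (𝓝[B'] w) f) =ᶠ[𝓝 w] G := by
      filter_upwards [hB.mem_nhds hw, hV.mem_nhds hwV] with v hvB hvV
      exact key v hvB V hV hvV G hG hGf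
    exact (((hG w hwV).differentiableAt (hV.mem_nhds hwV)).congr_of_eventuallyEq
      h1).differentiableWithinAt
  · intro w hw hw'
    obtain ⟨V, hV, hwV, G, hG, hGf⟩ := hloc w hw
    show limUnder (𝓝[B'] w) f = f w
    rw [key w hw V hV hwV G hG hGf, hGf w hwV hw']

/-- Zeros of a holomorphic function on a disc, not identically zero, are isolated. -/
theorem iso (ρ : ℝ) (p : ℂ → ℂ) (hp : DifferentiableOn ℂ p (ball 0 ρ)) (ζ₁ : ℂ)
    (hζ₁ : ζ₁ ∈ ball (0 : ℂ) ρ) (h1 : p ζ₁ ≠ 0) : ∀ ζ ∈ ball (0 : ℂ) ρ, ∀ᶠ z in 𝓝[≠] ζ, p z ≠ 0 := by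
  intro ζ hζ
  have ha : AnalyticOnNhd ℂ p (ball 0 ρ) := hp.analyticOnNhd isOpen_ball
  rcases (ha ζ hζ).eventually_eq_zero_or_eventually_ne_zero with h | h
  · exfalso
    exact h1 (ha.eqOn_zero_of_preconnected_of_eventuallyEq_zero
      (convex_ball (0 : ℂ) ρ).isPreconnected hζ h hζ₁)
  · exact h

/-- The one variable case. -/
theorem oneD (hRS : StRS1) (ρ : ℝ) (hρ : 0 < ρ) (h p : ℂ → ℂ)
    (hp : DifferentiableOn ℂ p (ball 0 ρ)) (hp0 : p 0 ≠ 0)
    (hh : DifferentiableOn ℂ h {ζ | ζ ∈ ball (0 : ℂ) ρ ∧ p ζ ≠ 0})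
    (hint : IntegrableOn (fun ζ => ‖h ζ‖ ^ 2) {ζ | ζ ∈ ball (0 : ℂ) ρ ∧ p ζ ≠ 0}) :
    ∃ h' : ℂ → ℂ, DifferentiableOn ℂ h' (ball 0 ρ) ∧
      ∀ ζ ∈ ball (0 : ℂ) ρ, p ζ ≠ 0 → h' ζ = h ζ := by
  have hiso := iso ρ p hp 0 (mem_ball_self hρ) hp0
  have hopen : IsOpen {ζ | ζ ∈ ball (0 : ℂ) ρ ∧ p ζ ≠ 0} :=
    hp.continuousOn.isOpen_inter_preimage isOpen_ball isOpen_compl_singleton
  obtain ⟨F, hF, hFf⟩ := glue (ball (0 : ℂ) ρ) {ζ | ζ ∈ ball (0 : ℂ) ρ ∧ p ζ ≠ 0} isOpen_ball h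
    (by
      intro ζ hζ
      have h2 : {ζ | ζ ∈ ball (0 : ℂ) ρ ∧ p ζ ≠ 0} ∈ 𝓝[≠] ζ := by
        have h3 : ∀ᶠ z in 𝓝[≠] ζ, z ∈ ball (0 : ℂ) ρ :=
          nhdsWithin_le_nhds (isOpen_ball.mem_nhds hζ)
        filter_upwards [h3, hiso ζ hζ] with z h4 h5 using ⟨h4, h5⟩
      have h6 : 𝓝[≠] ζ ≤ 𝓝[{ζ | ζ ∈ ball (0 : ℂ) ρ ∧ p ζ ≠ 0}] ζ :=
        le_inf nhdsWithin_le_nhds (le_principal_iff.2 h2)
      exact NeBot.mono inferInstance h6)
    (by
      intro ζ hζ
      by_cases hz : p ζ = 0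
      · have h3 : ∀ᶠ z in 𝓝[≠] ζ, z ∈ ball (0 : ℂ) ρ :=
          nhdsWithin_le_nhds (isOpen_ball.mem_nhds hζ)
        have h4 := (hiso ζ hζ).and h3
        rw [eventually_nhdsWithin_iff] at h4
        obtain ⟨r, hr, hr2⟩ := Metric.eventually_nhds_iff_ball.1 h4
        have hsub : ∀ z ∈ ball (0 : ℂ) r, z ≠ 0 → ζ + z ∈ {ζ | ζ ∈ ball (0 : ℂ) ρ ∧ p ζ ≠ 0} := by
          intro z hz1 hz2
          have h5 := hr2 (ζ + z) (by simpa using hz1) (by simpa using hz2)
          exact ⟨h5.2, h5.1⟩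
        obtain ⟨g', hg', hgg⟩ := hRS r (fun z => h (ζ + z)) hr
          (by
            intro z hz1
            have h5 := hsub z hz1.1 hz1.2
            have h6 := (hh (ζ + z) h5).differentiableAt (hopen.mem_nhds h5)
            exact (h6.comp z ((differentiableAt_const ζ).add
              differentiableAt_id)).differentiableWithinAt)
          (by
            have h7 : IntegrableOn (fun ζ => ‖h ζ‖ ^ 2) (ball ζ r \ {ζ}) := by
              refine hint.mono_set ?_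
              intro z hz1
              have := hsub (z - ζ) (by simpa [dist_eq_norm] using hz1.1)
                (by simpa [sub_eq_zero] using hz1.2)
              simpa using this
            have h8 : IntegrableOn (fun ζ => ‖h ζ‖ ^ 2) (ball ζ r) :=
              h7.congr_set_ae (by
                have : (ball ζ r \ {ζ} : Set ℂ) =ᵐ[volume] ball ζ r :=
                  diff_null_ae_eq_self (measure_singleton ζ)
                exact this.symm)
            have h9 := (measurePreserving_add_left (volume : Measure ℂ) ζ).integrableOn_comp_preimage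
              (f := fun ζ => ‖h ζ‖ ^ 2) (s := ball ζ r) (MeasurableEquiv.addLeft ζ).measurableEmbedding
            have h10 := h9.2 h8
            have h11 : (fun x => ζ + x) ⁻¹' ball ζ r = ball (0 : ℂ) r := by
              ext z; simp
            rw [h11] at h10
            exact h10)
        refine ⟨ball ζ r, isOpen_ball, mem_ball_self hr, fun v => g' (v - ζ), ?_, ?_⟩
        · intro v hv
          have h5 : v - ζ ∈ ball (0 : ℂ) r := by simpa [dist_eq_norm] using hv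
          have h6 := (hg' (v - ζ) h5).differentiableAt (isOpen_ball.mem_nhds h5)
          exact (h6.comp v (differentiableAt_id.sub (differentiableAt_const ζ))).differentiableWithinAt
        · intro v hv hv'
          have h5 : v - ζ ∈ ball (0 : ℂ) r := by simpa [dist_eq_norm] using hv
          have h6 : v - ζ ≠ 0 := by
            rw [sub_ne_zero]
            rintro rfl
            exact hv'.2 hz
          have := hgg (v - ζ) h5 h6
          simpa using this
      · exact ⟨_, hopen, ⟨hζ, hz⟩, h, hh, fun v _ _ => rfl⟩)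
  exact ⟨F, hF, fun ζ h1 h2 => hFf ζ h1 ⟨h1, h2⟩⟩

/-- Holomorphic dependence of a Cauchy type integral on the parameter. -/
theorem paramDiff {m : ℕ} (B' : Set (Fin m → ℂ)) (hB' : IsOpen B') (f : (Fin m → ℂ) → ℂ)
    (hf : DifferentiableOn ℂ f B') (w₀ b : Fin m → ℂ) (ε δ : ℝ) (hε : 0 < ε) (hδ : 0 < δ)
    (hK : cthickening δ ((fun z : ℂ => w₀ + z • b) '' sphere 0 ε) ⊆ B') :
    DifferentiableOn ℂ (fun w => ∮ z in C(0, ε), z⁻¹ • f (w + z • b)) (ball w₀ (δ / 2)) := by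
  set K := (fun z : ℂ => w₀ + z • b) '' sphere (0 : ℂ) ε with hKdef
  have hKc : IsCompact K := (isCompact_sphere (0 : ℂ) ε).image (by fun_prop)
  have hTc : IsCompact (cthickening δ K) := hKc.cthickening
  obtain ⟨M, hM⟩ := hTc.exists_bound_of_continuousOn (hf.continuousOn.mono hK)
  have hbT : ∀ w ∈ ball w₀ (δ / 2), ∀ z : ℂ, z ∈ sphere (0 : ℂ) ε →
      ball (w + z • b) (δ / 2) ⊆ cthickening δ K := by
    intro w hw z hz v hv
    have h1 : w₀ + z • b ∈ K := ⟨z, hz, rfl⟩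
    refine mem_cthickening_of_dist_le v (w₀ + z • b) δ K h1 ?_
    have h2 : dist v (w + z • b) < δ / 2 := hv
    have h3 : dist (w + z • b) (w₀ + z • b) < δ / 2 := by
      rw [dist_add_right]; exact hw
    linarith [dist_triangle v (w + z • b) (w₀ + z • b)]
  have hmemT : ∀ w ∈ ball w₀ (δ / 2), ∀ z : ℂ, z ∈ sphere (0 : ℂ) ε →
      w + z • b ∈ cthickening δ K := fun w hw z hz =>
    hbT w hw z hz (mem_ball_self (by linarith))
  have hfd : ∀ w ∈ ball w₀ (δ / 2), ∀ z : ℂ, z ∈ sphere (0 : ℂ) ε →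
      ‖fderiv ℂ f (w + z • b)‖ ≤ (2 * M) / (δ / 2) := by
    intro w hw z hz
    refine Complex.norm_fderiv_le_div_of_mapsTo_ball
      (hf.mono ((hbT w hw z hz).trans hK)) ?_ (by linarith)
    intro v hv
    have h1 := hM v (hbT w hw z hz hv)
    have h2 := hM (w + z • b) (hmemT w hw z hz)
    rw [mem_closedBall, dist_eq_norm]
    linarith [norm_sub_le (f v) (f (w + z • b))]
  have hcm : ∀ t : ℝ, circleMap 0 ε t ∈ sphere (0 : ℂ) ε := fun t =>
    circleMap_mem_sphere 0 hε.le t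
  intro w hw
  have hcont : ∀ x ∈ ball w₀ (δ / 2), Continuous fun t : ℝ =>
      deriv (circleMap 0 ε) t • ((circleMap 0 ε t)⁻¹ • f (x + circleMap 0 ε t • b)) := by
    intro x hx
    have h1 : Continuous fun t : ℝ => f (x + circleMap 0 ε t • b) := by
      have h2 : ContinuousOn f B' := hf.continuousOn
      refine h2.comp_continuous (by fun_prop) ?_
      intro t
      exact hK (hmemT x hx _ (hcm t))
    have h3 : Continuous fun t : ℝ => (circleMap 0 ε t)⁻¹ := by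
      refine Continuous.inv₀ (continuous_circleMap 0 ε) ?_
      intro t
      exact circleMap_ne_center hε.ne'
    have h4 : Continuous fun t : ℝ => deriv (circleMap 0 ε) t := by
      simp only [deriv_circleMap]
      fun_prop
    exact h4.smul (h3.smul h1)
  have hmain := intervalIntegral.hasFDerivAt_integral_of_dominated_of_fderiv_le (𝕜 := ℂ)
    (μ := volume) (a := 0) (b := 2 * Real.pi) (x₀ := w) (s := ball w₀ (δ / 2))
    (bound := fun _ : ℝ => (2 * M) / (δ / 2))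
    (F := fun x t => deriv (circleMap 0 ε) t • ((circleMap 0 ε t)⁻¹ • f (x + circleMap 0 ε t • b)))
    (F' := fun x t => deriv (circleMap 0 ε) t • ((circleMap 0 ε t)⁻¹ •
      fderiv ℂ f (x + circleMap 0 ε t • b)))
    (isOpen_ball.mem_nhds hw)
    (by
      filter_upwards [isOpen_ball.mem_nhds hw] with x hx
      exact (hcont x hx).aestronglyMeasurable)
    ((hcont w hw).intervalIntegrable _ _)
    (by
      have h1 : Measurable fun t : ℝ => fderiv ℂ f (w + circleMap 0 ε t • b) := by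
        have h2 : Continuous fun t : ℝ => w + circleMap 0 ε t • b := by fun_prop
        exact (measurable_fderiv ℂ f).comp h2.measurable
      have h3 : Measurable fun t : ℝ => (circleMap 0 ε t)⁻¹ :=
        (continuous_circleMap 0 ε).measurable.inv
      have h4 : Measurable fun t : ℝ => deriv (circleMap 0 ε) t := by
        simp only [deriv_circleMap]
        have : Continuous fun t : ℝ => circleMap 0 ε t * Complex.I := by fun_prop
        exact this.measurable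
      exact (h4.smul (h3.smul h1)).aestronglyMeasurable)
    (by
      refine Eventually.of_forall fun t _ x hx => ?_
      have h1 := hfd x hx _ (hcm t)
      have h2 : ‖deriv (circleMap 0 ε) t‖ = ε := by
        simp [deriv_circleMap, circleMap, abs_of_pos hε]
      have h3 : ‖(circleMap 0 ε t)⁻¹‖ = ε⁻¹ := by
        simp [circleMap, abs_of_pos hε]
      rw [norm_smul, norm_smul, h2, h3, ← mul_assoc, mul_inv_cancel₀ hε.ne', one_mul]
      exact h1)
    (intervalIntegrable_const)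
    (by
      refine Eventually.of_forall fun t _ x hx => ?_
      have h1 : x + circleMap 0 ε t • b ∈ B' := hK (hmemT x hx _ (hcm t))
      have h2 := ((hf _ h1).differentiableAt (hB'.mem_nhds h1)).hasFDerivAt
      have h3 : HasFDerivAt (fun x => f (x + circleMap 0 ε t • b))
          (fderiv ℂ f (x + circleMap 0 ε t • b)) x := by
        exact (hasFDerivAt_comp_add_right (circleMap 0 ε t • b)).2 h2
      exact (h3.const_smul ((circleMap 0 ε t)⁻¹)).const_smul (deriv (circleMap 0 ε) t))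
  exact hmain.differentiableAt.differentiableWithinAt

/-- For almost every parameter the slice is square integrable. -/
theorem slice {m : ℕ} (S : Set (Fin m → ℂ)) (hS : IsOpen S) (f : (Fin m → ℂ) → ℂ)
    (hf : ContinuousOn f S) (hint : IntegrableOn (fun w => ‖f w‖ ^ 2) S) (b : Fin m → ℂ) (ρ : ℝ) :
    ∀ᵐ w : Fin m → ℂ, ∀ T : Set ℂ, MeasurableSet T → T ⊆ ball 0 ρ → (∀ ζ ∈ T, w + ζ • b ∈ S) →
      ContinuousOn (fun ζ => f (w + ζ • b)) T →
      IntegrableOn (fun ζ : ℂ => ‖f (w + ζ • b)‖ ^ 2) T := by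
  classical
  set f₀ : (Fin m → ℂ) → ℂ := S.piecewise f 0 with hf₀
  have hm₀ : Measurable f₀ := hf.measurable_piecewise continuousOn_const hS.measurableSet
  set q : (Fin m → ℂ) → ENNReal := fun w => ‖f₀ w‖ₑ ^ 2 with hq
  have hqm : Measurable q := hm₀.enorm.pow_const 2
  have hqfin : ∫⁻ w, q w ≠ ⊤ := by
    have h1 : ∫⁻ w, q w = ∫⁻ w in S, q w := by
      rw [← lintegral_indicator hS.measurableSet]
      refine lintegral_congr fun w => ?_
      by_cases hw : w ∈ S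
      · simp [hw]
      · simp [hw, hq, hf₀]
    rw [h1]
    have h2 := hint.2
    rw [hasFiniteIntegral_iff_enorm] at h2
    refine ne_of_lt (lt_of_le_of_lt (le_of_eq ?_) h2)
    refine setLIntegral_congr_fun hS.measurableSet ?_
    intro w hw
    simp only [hq, hf₀, piecewise_eq_of_mem _ _ _ hw]
    rw [enorm_pow, enorm_norm]
  have hjoint : Measurable fun x : (Fin m → ℂ) × ℂ => q (x.1 + x.2 • b) := by
    refine hqm.comp ?_
    have : Continuous fun x : (Fin m → ℂ) × ℂ => x.1 + x.2 • b := by fun_prop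
    exact this.measurable
  have hswap : ∫⁻ w : Fin m → ℂ, ∫⁻ ζ in ball (0 : ℂ) ρ, q (w + ζ • b) =
      ∫⁻ ζ in ball (0 : ℂ) ρ, ∫⁻ w : Fin m → ℂ, q (w + ζ • b) :=
    lintegral_lintegral_swap (f := fun (w : Fin m → ℂ) (ζ : ℂ) => q (w + ζ • b))
      hjoint.aemeasurable
  have hfin : ∫⁻ w : Fin m → ℂ, ∫⁻ ζ in ball (0 : ℂ) ρ, q (w + ζ • b) ≠ ⊤ := by
    rw [hswap]
    have : ∀ ζ : ℂ, ∫⁻ w : Fin m → ℂ, q (w + ζ • b) = ∫⁻ w, q w := fun ζ =>
      lintegral_add_right_eq_self q (ζ • b)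
    simp only [this]
    rw [lintegral_const]
    refine ENNReal.mul_ne_top hqfin ?_
    rw [Measure.restrict_apply_univ]
    exact measure_ball_lt_top.ne
  have hae := ae_lt_top (hjoint.lintegral_prod_right' (ν := volume.restrict (ball (0 : ℂ) ρ))) hfin
  filter_upwards [hae] with w hw T hT hTρ hTS hcont
  refine ⟨?_, ?_⟩
  · exact ((hcont.norm.pow 2).aestronglyMeasurable hT)
  · rw [hasFiniteIntegral_iff_enorm]
    refine lt_of_le_of_lt ?_ hw
    refine le_trans (le_of_eq ?_) (lintegral_mono_set hTρ)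
    refine setLIntegral_congr_fun hT ?_
    intro ζ hζ
    simp only [hq, hf₀, piecewise_eq_of_mem _ _ _ (hTS ζ hζ)]
    rw [enorm_pow, enorm_norm]

/-- The local extension. -/
theorem localExt (hRS : StRS1) {m : ℕ} (P f : (Fin m → ℂ) → ℂ) (w₀ : Fin m → ℂ) (R : ℝ)
    (hR : 0 < R) (hP : DifferentiableOn ℂ P (ball w₀ R)) (w₁ : Fin m → ℂ) (hw₁ : w₁ ∈ ball w₀ R)
    (hPw₀ : P w₀ = 0) (hPw₁ : P w₁ ≠ 0)
    (hf : DifferentiableOn ℂ f {w | w ∈ ball w₀ R ∧ P w ≠ 0})
    (hint : IntegrableOn (fun w => ‖f w‖ ^ 2) {w | w ∈ ball w₀ R ∧ P w ≠ 0}) :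
    ∃ V : Set (Fin m → ℂ), IsOpen V ∧ w₀ ∈ V ∧ ∃ G : (Fin m → ℂ) → ℂ, DifferentiableOn ℂ G V ∧
      ∀ v ∈ V, v ∈ ball w₀ R → P v ≠ 0 → G v = f v := by
  set S : Set (Fin m → ℂ) := {w | w ∈ ball w₀ R ∧ P w ≠ 0} with hSdef
  have hSo : IsOpen S :=
    hP.continuousOn.isOpen_inter_preimage isOpen_ball isOpen_compl_singleton
  set b : Fin m → ℂ := w₁ - w₀ with hb
  have hb0 : b ≠ 0 := by
    rw [hb, sub_ne_zero]; rintro rfl; exact hPw₁ hPw₀
  have hbn : 0 < ‖b‖ := norm_pos_iff.2 hb0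
  have hbR : ‖b‖ < R := by
    have : dist w₁ w₀ < R := hw₁
    rwa [dist_eq_norm] at this
  have hline : ∀ (w : Fin m → ℂ) (r s : ℝ), w ∈ ball w₀ r → ∀ ζ : ℂ, ζ ∈ ball (0 : ℂ) s →
      r + s * ‖b‖ ≤ R → w + ζ • b ∈ ball w₀ R := by
    intro w r s hw ζ hζ hrs
    rw [mem_ball, dist_eq_norm]
    have h1 : w + ζ • b - w₀ = (w - w₀) + ζ • b := by abel
    rw [h1]
    have h2 : ‖w - w₀‖ < r := by rw [← dist_eq_norm]; exact hw
    have h3 : ‖ζ‖ < s := by simpa using hζ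
    have h4 : ‖ζ • b‖ ≤ s * ‖b‖ := by
      rw [norm_smul]; exact mul_le_mul_of_nonneg_right h3.le hbn.le
    linarith [norm_add_le (w - w₀) (ζ • b)]
  have hline0 : ∀ ζ : ℂ, ζ ∈ ball (0 : ℂ) (R / ‖b‖) → w₀ + ζ • b ∈ ball w₀ R := by
    intro ζ hζ
    rw [mem_ball, dist_eq_norm, add_sub_cancel_left, norm_smul]
    have h3 : ‖ζ‖ < R / ‖b‖ := by simpa using hζ
    rwa [lt_div_iff₀ hbn] at h3
  have hφd : DifferentiableOn ℂ (fun ζ : ℂ => P (w₀ + ζ • b)) (ball 0 (R / ‖b‖)) := by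
    intro ζ hζ
    have h1 := hline0 ζ hζ
    have h2 := (hP _ h1).differentiableAt (isOpen_ball.mem_nhds h1)
    have h3 : DifferentiableAt ℂ (fun ζ : ℂ => w₀ + ζ • b) ζ := by fun_prop
    exact (DifferentiableAt.comp (f := fun ζ : ℂ => w₀ + ζ • b) ζ h2 h3).differentiableWithinAt
  have hRb : 1 < R / ‖b‖ := by rw [lt_div_iff₀ hbn]; linarith
  have hiso := iso (R / ‖b‖) (fun ζ : ℂ => P (w₀ + ζ • b)) hφd 1 (by simpa using hRb)
    (by simpa [hb] using hPw₁) 0 (by simpa using (by positivity : 0 < R / ‖b‖))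
  rw [eventually_nhdsWithin_iff] at hiso
  obtain ⟨ε₀, hε₀, hε₀'⟩ := Metric.eventually_nhds_iff_ball.1 hiso
  obtain ⟨ε, hε, hεε₀, hεR⟩ : ∃ ε : ℝ, 0 < ε ∧ ε < ε₀ ∧ 2 * ε * ‖b‖ ≤ R / 2 := by
    refine ⟨min (ε₀ / 2) (R / (4 * ‖b‖)), by positivity, ?_, ?_⟩
    · exact lt_of_le_of_lt (min_le_left _ _) (by linarith)
    · have h1 : min (ε₀ / 2) (R / (4 * ‖b‖)) ≤ R / (4 * ‖b‖) := min_le_right _ _
      calc 2 * min (ε₀ / 2) (R / (4 * ‖b‖)) * ‖b‖ ≤ 2 * (R / (4 * ‖b‖)) * ‖b‖ := by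
            gcongr
        _ = R / 2 := by field_simp; ring
  have hKS : (fun z : ℂ => w₀ + z • b) '' sphere 0 ε ⊆ S := by
    rintro _ ⟨z, hz, rfl⟩
    have hzn : ‖z‖ = ε := by simpa using hz
    refine ⟨hline w₀ (R / 2) (2 * ε) (mem_ball_self (by positivity)) z
      (by simp [hzn]; linarith) (by linarith), ?_⟩
    refine hε₀' z (by simp [hzn]; linarith) ?_
    intro h0
    have : z = 0 := h0
    rw [this, norm_zero] at hzn
    linarith
  have hKc : IsCompact ((fun z : ℂ => w₀ + z • b) '' sphere (0 : ℂ) ε) :=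
    (isCompact_sphere (0 : ℂ) ε).image (by fun_prop)
  obtain ⟨δ, hδ, hδK⟩ := hKc.exists_cthickening_subset_open hSo hKS
  have hG := paramDiff S hSo f hf w₀ b ε δ hε hδ hδK
  set G : (Fin m → ℂ) → ℂ := fun w =>
    (2 * Real.pi * Complex.I : ℂ)⁻¹ • ∮ z in C(0, ε), z⁻¹ • f (w + z • b) with hGdef
  set r : ℝ := min (δ / 2) (R / 4) with hr
  have hr0 : 0 < r := by positivity
  have hGd : DifferentiableOn ℂ G (ball w₀ r) := by
    have h1 : DifferentiableOn ℂ (fun w => ∮ z in C(0, ε), z⁻¹ • f (w + z • b)) (ball w₀ r) :=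
      hG.mono (ball_subset_ball (min_le_left _ _))
    exact h1.const_smul (2 * Real.pi * Complex.I : ℂ)⁻¹
  refine ⟨ball w₀ r, isOpen_ball, mem_ball_self hr0, G, hGd, ?_⟩
  have hsl := slice S hSo f hf.continuousOn hint b (2 * ε)
  have hae : ∀ᵐ w : Fin m → ℂ, w ∈ ball w₀ r ∩ S → G w = f w := by
    filter_upwards [hsl] with w hw hwS
    obtain ⟨hwr, hwB, hwP⟩ := hwS
    have hin : ∀ ζ : ℂ, ζ ∈ ball (0 : ℂ) (2 * ε) → w + ζ • b ∈ ball w₀ R := by
      intro ζ hζ
      refine hline w r (2 * ε) hwr ζ hζ ?_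
      have : r ≤ R / 4 := min_le_right _ _
      linarith
    have hpd : DifferentiableOn ℂ (fun ζ : ℂ => P (w + ζ • b)) (ball 0 (2 * ε)) := by
      intro ζ hζ
      have h1 := hin ζ hζ
      have h2 := (hP _ h1).differentiableAt (isOpen_ball.mem_nhds h1)
      have h3 : DifferentiableAt ℂ (fun ζ : ℂ => w + ζ • b) ζ := by fun_prop
      exact (DifferentiableAt.comp (f := fun ζ : ℂ => w + ζ • b) ζ h2 h3).differentiableWithinAt
    have hhd : DifferentiableOn ℂ (fun ζ : ℂ => f (w + ζ • b))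
        {ζ | ζ ∈ ball (0 : ℂ) (2 * ε) ∧ P (w + ζ • b) ≠ 0} := by
      intro ζ hζ
      have h1 : w + ζ • b ∈ S := ⟨hin ζ hζ.1, hζ.2⟩
      have h2 := (hf _ h1).differentiableAt (hSo.mem_nhds h1)
      have h3 : DifferentiableAt ℂ (fun ζ : ℂ => w + ζ • b) ζ := by fun_prop
      exact (DifferentiableAt.comp (f := fun ζ : ℂ => w + ζ • b) ζ h2 h3).differentiableWithinAt
    have hTo : IsOpen {ζ : ℂ | ζ ∈ ball (0 : ℂ) (2 * ε) ∧ P (w + ζ • b) ≠ 0} :=
      hpd.continuousOn.isOpen_inter_preimage isOpen_ball isOpen_compl_singleton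
    have hint' := hw {ζ : ℂ | ζ ∈ ball (0 : ℂ) (2 * ε) ∧ P (w + ζ • b) ≠ 0} hTo.measurableSet
      (fun ζ hζ => hζ.1) (fun ζ hζ => ⟨hin ζ hζ.1, hζ.2⟩) hhd.continuousOn
    obtain ⟨h', hh', hhf⟩ := oneD hRS (2 * ε) (by linarith) (fun ζ : ℂ => f (w + ζ • b))
      (fun ζ : ℂ => P (w + ζ • b)) hpd (by simpa using hwP) hhd hint'
    have hcauchy := Complex.two_pi_I_inv_smul_circleIntegral_sub_inv_smul_of_differentiable_on_off_countable
      (R := ε) (c := 0) (w := 0) (f := h') (s := ∅) countable_empty (mem_ball_self hε)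
      (hh'.continuousOn.mono (closedBall_subset_ball (by linarith)))
      (fun x hx => (hh' x (ball_subset_ball (by linarith) hx.1)).differentiableAt
        (isOpen_ball.mem_nhds (ball_subset_ball (by linarith) hx.1)))
    have h0 : h' 0 = f w := by
      have := hhf 0 (mem_ball_self (by linarith)) (by simpa using hwP)
      simpa using this
    rw [h0] at hcauchy
    have hci : (∮ z in C(0, ε), z⁻¹ • f (w + z • b)) = ∮ z in C(0, ε), (z - 0)⁻¹ • h' z := by
      refine circleIntegral.integral_congr hε.le ?_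
      intro z hz
      have hzn : ‖z‖ = ε := by simpa using hz
      have hzS : w + z • b ∈ S := by
        refine hδK (mem_cthickening_of_dist_le _ (w₀ + z • b) δ _ ⟨z, hz, rfl⟩ ?_)
        rw [dist_add_right]
        have h1 : dist w w₀ < r := hwr
        have h2 : r ≤ δ / 2 := min_le_left _ _
        linarith
      have hz2 : z ∈ ball (0 : ℂ) (2 * ε) := by simp [hzn]; linarith
      have h5 := hhf z hz2 hzS.2
      simp only [sub_zero]
      rw [h5]
    calc G w = (2 * Real.pi * Complex.I : ℂ)⁻¹ • ∮ z in C(0, ε), z⁻¹ • f (w + z • b) := rfl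
      _ = (2 * Real.pi * Complex.I : ℂ)⁻¹ • ∮ z in C(0, ε), (z - 0)⁻¹ • h' z := by rw [hci]
      _ = f w := hcauchy
  have hopen : IsOpen (ball w₀ r ∩ S) := isOpen_ball.inter hSo
  have heq : EqOn G f (ball w₀ r ∩ S) := by
    refine Measure.eqOn_open_of_ae_eq (μ := volume) ?_ hopen
      (hGd.continuousOn.mono inter_subset_left) (hf.continuousOn.mono inter_subset_right)
    exact (ae_restrict_iff' hopen.measurableSet).2 hae
  intro v hv hvB hvP
  exact heq ⟨hv, hvB, hvP⟩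

theorem hEXT (hRS : StRS1) : StEXT := by
  intro m B hB P f hP hdense hf hint
  have hSo : IsOpen {w | w ∈ B ∧ P w ≠ 0} :=
    hP.continuousOn.isOpen_inter_preimage hB isOpen_compl_singleton
  obtain ⟨F, hF, hFf⟩ := glue B {w | w ∈ B ∧ P w ≠ 0} hB f
    (by
      intro w hw
      rw [← mem_closure_iff_nhdsWithin_neBot, mem_closure_iff_nhds]
      intro t ht
      obtain ⟨t', ht', hto, hwt⟩ := _root_.mem_nhds_iff.1 (Filter.inter_mem ht (hB.mem_nhds hw))
      obtain ⟨v, hv, hPv⟩ := hdense t' (fun x hx => (ht' hx).2) hto ⟨w, hwt⟩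
      exact ⟨v, (ht' hv).1, (ht' hv).2, hPv⟩)
    (by
      intro w₀ hw₀
      by_cases hz : P w₀ = 0
      · obtain ⟨V, hV, hwV, hVint⟩ := hint w₀ hw₀
        obtain ⟨R, hR, hRsub⟩ := Metric.isOpen_iff.1 (hV.inter hB) w₀ ⟨hwV, hw₀⟩
        obtain ⟨w₁, hw₁, hPw₁⟩ := hdense (ball w₀ R) (fun x hx => (hRsub hx).2) isOpen_ball
          ⟨w₀, mem_ball_self hR⟩
        obtain ⟨U, hU, hwU, G, hG, hGf⟩ := localExt hRS P f w₀ R hR
          (hP.mono fun x hx => (hRsub hx).2) w₁ hw₁ hz hPw₁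
          (hf.mono fun x hx => ⟨(hRsub hx.1).2, hx.2⟩)
          (hVint.mono_set fun x hx => ⟨(hRsub hx.1).1, (hRsub hx.1).2, hx.2⟩)
        exact ⟨U ∩ ball w₀ R, hU.inter isOpen_ball, ⟨hwU, mem_ball_self hR⟩, G,
          hG.mono inter_subset_left, fun v hv hv' => hGf v hv.1 hv.2 hv'.2⟩
      · exact ⟨_, hSo, ⟨hw₀, hz⟩, f, hf, fun v _ _ => rfl⟩)
  exact ⟨F, hF, fun w hw hw' => hFf w hw ⟨hw, hw'⟩⟩

end Pool.Agent.Helper11.KP
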