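import Pool.Agent.Helper93.KP.St

/-!
# Project KP (MP_77e955_nt): module GBD, density bound
-/

set_option autoImplicit false

noncomputable section

namespace Pool.Agent.Helper11.KP

open Finset Filter Topology
open Pool.Agent.Helper93.KP
open Pool.Agent.Helper15.AB (ee Kl StDB StMT)
open Pool.Agent.Helper9.TW (Qs fm)

private theorem two_sum (Q : Finset ℕ) (x : ℕ → ℝ) :
    ∑ D ∈ Q.powerset, ∑ D' ∈ Q.powerset, ∏ p ∈ D ∪ D', x p = ∏ p ∈ Q, (1 + 3 * x p) := by
  classical
  induction Q using Finset.induction_on with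
  | empty => simp
  | @insert q Q hq ih =>
    rw [Finset.prod_insert hq, ← ih, Finset.sum_powerset_insert hq]
    have h1 : ∀ D ∈ Q.powerset, ∑ D' ∈ (insert q Q).powerset, ∏ p ∈ D ∪ D', x p =
        (1 + x q) * ∑ D' ∈ Q.powerset, ∏ p ∈ D ∪ D', x p := by
      intro D hD
      rw [Finset.sum_powerset_insert hq, add_mul, one_mul, Finset.mul_sum]
      congr 1
      refine Finset.sum_congr rfl ?_
      intro D' hD'
      have hn : q ∉ D ∪ D' := by
        intro h
        rcases Finset.mem_union.1 h with h | h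
        · exact hq (Finset.mem_powerset.1 hD h)
        · exact hq (Finset.mem_powerset.1 hD' h)
      rw [Finset.union_insert, Finset.prod_insert hn]
    have h2 : ∀ D ∈ Q.powerset, ∑ D' ∈ (insert q Q).powerset, ∏ p ∈ insert q D ∪ D', x p =
        (2 * x q) * ∑ D' ∈ Q.powerset, ∏ p ∈ D ∪ D', x p := by
      intro D hD
      rw [Finset.sum_powerset_insert hq, Finset.mul_sum, ← Finset.sum_add_distrib]
      refine Finset.sum_congr rfl ?_
      intro D' hD'
      have hn : q ∉ D ∪ D' := by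
        intro h
        rcases Finset.mem_union.1 h with h | h
        · exact hq (Finset.mem_powerset.1 hD h)
        · exact hq (Finset.mem_powerset.1 hD' h)
      rw [Finset.insert_union, Finset.insert_union, Finset.union_insert, Finset.insert_idem,
        Finset.prod_insert hn]
      ring
    rw [Finset.sum_congr rfl h1, Finset.sum_congr rfl h2, ← Finset.mul_sum, ← Finset.mul_sum]
    ring

private theorem mem_filt {α : Type} (p : α → Prop) (inst : DecidablePred p) (s : Finset α) (x : α)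
    (h : x ∈ @Finset.filter α p inst s) : x ∈ s := (Finset.mem_filter.1 h).1

private theorem fm_sub (i a u : ℕ) (θ : ℝ) : fm i a θ u ⊆ (Qs a θ).powerset := by
  intro D hD
  unfold fm at hD
  split_ifs at hD with h
  · exact mem_filt _ _ _ _ hD
  · rcases Finset.mem_union.1 hD with h1 | h1
    · exact mem_filt _ _ _ _ h1
    · exact mem_filt _ _ _ _ h1

open Classical in
private theorem term_le (P : Prop) (D D' : Finset ℕ) :
    |(-1 : ℝ) ^ (D.card + D'.card) * (if P then 1 / ((∏ p ∈ D ∪ D', p : ℕ) : ℝ) else 0)| ≤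
      ∏ p ∈ D ∪ D', (1 / (p : ℝ)) := by
  rw [abs_mul, abs_pow, abs_neg, abs_one, one_pow, one_mul]
  split_ifs with h
  · rw [abs_of_nonneg (by positivity)]
    push_cast
    rw [Finset.prod_div_distrib, Finset.prod_const_one]
  · rw [abs_zero]
    exact Finset.prod_nonneg (fun p _ => by positivity)

theorem hGBD (hM : StMT) : StGBD := by
  obtain ⟨C, hC, hM⟩ := hM
  refine ⟨Real.exp (3 * C), Real.exp_pos _, ?_⟩
  intro i a u k k' θ ha hθ hθ1
  have haR : (3 : ℝ) ≤ a := by exact_mod_cast ha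
  have hlog : 0 < Real.log a := Real.log_pos (by linarith)
  -- step 1
  have h1 : |GG i a θ u k k'| ≤ ∑ D ∈ (Qs a θ).powerset, ∑ D' ∈ (Qs a θ).powerset,
      ∏ p ∈ D ∪ D', (1 / (p : ℝ)) := by
    unfold GG
    refine (Finset.abs_sum_le_sum_abs _ _).trans ?_
    refine le_trans (Finset.sum_le_sum (fun D _ => Finset.abs_sum_le_sum_abs _ _)) ?_
    have hpos : ∀ D D' : Finset ℕ, 0 ≤ ∏ p ∈ D ∪ D', (1 / (p : ℝ)) := fun D D' =>
      Finset.prod_nonneg (fun p _ => by positivity)
    calc _ ≤ ∑ D ∈ fm i a θ u, ∑ D' ∈ fm i a θ u, ∏ p ∈ D ∪ D', (1 / (p : ℝ)) := by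
          refine Finset.sum_le_sum (fun D _ => Finset.sum_le_sum (fun D' _ => ?_))
          exact term_le _ D D'
      _ ≤ ∑ D ∈ fm i a θ u, ∑ D' ∈ (Qs a θ).powerset, ∏ p ∈ D ∪ D', (1 / (p : ℝ)) :=
          Finset.sum_le_sum (fun D _ => Finset.sum_le_sum_of_subset_of_nonneg (fm_sub i a u θ)
            (fun D' _ _ => hpos D D'))
      _ ≤ _ := Finset.sum_le_sum_of_subset_of_nonneg (fm_sub i a u θ)
            (fun D _ _ => Finset.sum_nonneg (fun D' _ => hpos D D'))
  rw [two_sum] at h1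
  -- step 2
  have h2 : ∏ p ∈ Qs a θ, (1 + 3 * (1 / (p : ℝ))) ≤ Real.exp (3 * ∑ p ∈ Qs a θ, 1 / (p : ℝ)) := by
    rw [Finset.mul_sum, Real.exp_sum]
    refine Finset.prod_le_prod (fun p _ => by positivity) (fun p _ => ?_)
    have := Real.add_one_le_exp (3 * (1 / (p : ℝ)))
    linarith
  have h3 : ∑ p ∈ Qs a θ, 1 / (p : ℝ) ≤ ∑ l ∈ (Icc 1 ⌊(a : ℝ)⌋₊).filter Nat.Prime, (1 : ℝ) / l := by
    refine Finset.sum_le_sum_of_subset_of_nonneg ?_ (fun p _ _ => by positivity)
    intro p hp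
    unfold Qs at hp
    rw [Finset.mem_filter, Finset.mem_Icc] at hp
    rw [Finset.mem_filter, Finset.mem_Icc]
    refine ⟨⟨by omega, ?_⟩, hp.2.1⟩
    rw [Nat.floor_natCast]
    have h4 : (a : ℝ) ^ θ ≤ (a : ℝ) := by
      calc (a : ℝ) ^ θ ≤ (a : ℝ) ^ (1 : ℝ) := Real.rpow_le_rpow_of_exponent_le (by linarith) hθ1
        _ = a := Real.rpow_one _
    have h5 : (p : ℝ) ≤ a := (hp.2.2.le).trans h4
    exact_mod_cast h5
  have h4 := abs_le.1 (hM (a : ℝ) haR)
  have h5 : ∑ p ∈ Qs a θ, 1 / (p : ℝ) ≤ Real.log (Real.log a) + C := by linarith [h4.2]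
  calc |GG i a θ u k k'| ≤ Real.exp (3 * ∑ p ∈ Qs a θ, 1 / (p : ℝ)) := h1.trans h2
    _ ≤ Real.exp (3 * C + 3 * Real.log (Real.log a)) := Real.exp_le_exp.2 (by linarith)
    _ = Real.exp (3 * C) * Real.log a ^ 3 := by
      rw [Real.exp_add]
      congr 1
      have : Real.exp (3 * Real.log (Real.log a)) = (Real.exp (Real.log (Real.log a))) ^ 3 := by
        rw [← Real.exp_nat_mul]
        norm_num
      rw [this, Real.exp_log hlog]

end Pool.Agent.Helper11.KP
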